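import Mathlib

/-!
# Conformal modulus, CNED sets and quasiconformality: definitions
-/

set_option autoImplicit false

namespace CnedDefs

open MeasureTheory Filter Topology

open scoped ENNReal

/-- Euclidean space `ℝ^n` -/
abbrev Eu (n : ℕ) := EuclideanSpace ℝ (Fin n)

/-- length of the curve `γ : [0, 1] → ℝ^n` on `[0, t]` (`t` is clamped to `[0, 1]`) -/
noncomputable def arc {n : ℕ} (γ : ℝ → Eu n) (t : ℝ) : ℝ :=
  (eVariationOn γ (Set.Icc 0 (max 0 (min t 1)))).toReal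

theorem arc_mono {n : ℕ} (γ : ℝ → Eu n) (h : eVariationOn γ (Set.Icc 0 1) ≠ ⊤) :
    Monotone (arc γ) := by
  intro s t hst
  unfold arc
  have h1 : max 0 (min s 1) ≤ max 0 (min t 1) := max_le_max le_rfl (min_le_min hst le_rfl)
  have h2 : max 0 (min t 1) ≤ 1 := max_le (by norm_num) (min_le_right _ _)
  refine ENNReal.toReal_mono (ne_top_of_le_ne_top h ?_) ?_
  · exact eVariationOn.mono _ (Set.Icc_subset_Icc le_rfl h2)
  · exact eVariationOn.mono _ (Set.Icc_subset_Icc le_rfl h1)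

/-- the line integral `∫_γ ρ ds` of a rectifiable curve `γ : [0, 1] → ℝ^n` -/
noncomputable def lineInt {n : ℕ} (ρ : Eu n → ℝ≥0∞) (γ : ℝ → Eu n)
    (h : eVariationOn γ (Set.Icc 0 1) ≠ ⊤) : ℝ≥0∞ :=
  ∫⁻ t in Set.Icc (0 : ℝ) 1, ρ (γ t) ∂(arc_mono γ h).stieltjesFunction.measure

/-- conformal modulus of a family of curves: `inf_ρ ∫ ρ^n` over Borel `ρ : ℝ^n → [0, ∞]` with
`∫_γ ρ ds ≥ 1` for all rectifiable `γ` of the family -/
noncomputable def modn {n : ℕ} (Γ : Set (ℝ → Eu n)) : ℝ≥0∞ :=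
  ⨅ (ρ : Eu n → ℝ≥0∞) (_ : Measurable ρ)
    (_ : ∀ γ ∈ Γ, ∀ h : eVariationOn γ (Set.Icc 0 1) ≠ ⊤, 1 ≤ lineInt ρ γ h), ∫⁻ x, ρ x ^ n

/-- curves (on `[0, 1]`) joining `F₁` to `F₂` -/
def joining {n : ℕ} (F₁ F₂ : Set (Eu n)) : Set (ℝ → Eu n) :=
  {γ | ContinuousOn γ (Set.Icc 0 1) ∧ γ 0 ∈ F₁ ∧ γ 1 ∈ F₂}

/-- curves whose image meets `E` in a countable set -/
def Fsigma {n : ℕ} (E : Set (Eu n)) : Set (ℝ → Eu n) := {γ | (γ '' Set.Icc 0 1 ∩ E).Countable}

/-- CNED sets: restriction to curves meeting `E` in countably many points does not change the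
modulus of the curves joining two disjoint nonempty continua -/
def IsCNED {n : ℕ} (E : Set (Eu n)) : Prop :=
  ∀ F₁ F₂ : Set (Eu n), IsCompact F₁ → IsConnected F₁ → IsCompact F₂ → IsConnected F₂ →
    Disjoint F₁ F₂ → modn (joining F₁ F₂) = modn (joining F₁ F₂ ∩ Fsigma E)

/-- the homeomorphism `f` is quasiconformal in `U` (metric definition): the quotient of
`max_{|y-x|=r} |f y - f x|` and `min_{|z-x|=r} |f z - f x|` is at most `H` for all `x ∈ U` and all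
sufficiently small `r`, with `H` independent of `x` -/
def QCOn {n : ℕ} (f : Eu n ≃ₜ Eu n) (U : Set (Eu n)) : Prop :=
  ∃ H : ℝ, ∀ x ∈ U, ∀ᶠ r in 𝓝[>] (0 : ℝ), ∀ y z : Eu n, dist y x = r → dist z x = r →
    dist (f y) (f x) ≤ H * dist (f z) (f x)

end CnedDefs
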